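import Mathlib

set_option autoImplicit false

namespace Pool.Agent.P8H48.Apn

open MvPolynomial Finset Module

/-- The vector space `F_2^n`. -/
abbrev V (n : ℕ) : Type := Fin n → ZMod 2

variable {n : ℕ}

theorem two_zero : (2 : ZMod 2) = 0 := by decide

theorem self_add (x : V n) : x + x = 0 := by
  ext i
  exact CharTwo.add_self_eq_zero (x i)

/-- products over a monomial of degree at most two -/
theorem monomial_cases (d : Fin n →₀ ℕ) (hd : d.sum (fun _ e => e) ≤ 2) :
    d = 0 ∨ (∃ i, d = Finsupp.single i 1) ∨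
      (∃ i j, d = Finsupp.single i 1 + Finsupp.single j 1) ∧ 2 ≤ d.sum (fun _ e => e) := by
  classical
  have key : ∀ d : Fin n →₀ ℕ, d ≠ 0 → ∃ (i : Fin n) (d' : Fin n →₀ ℕ),
      d = Finsupp.single i 1 + d' ∧
      d.sum (fun _ e => e) = 1 + d'.sum (fun _ e => e) := by
    intro d hd
    obtain ⟨i, hi⟩ := Finsupp.ne_iff.1 hd
    rw [Finsupp.coe_zero, Pi.zero_apply] at hi
    have hle : Finsupp.single i 1 ≤ d := by
      rw [Finsupp.single_le_iff]
      omega
    refine ⟨i, d - Finsupp.single i 1, (add_tsub_cancel_of_le hle).symm, ?_⟩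
    conv_lhs => rw [← add_tsub_cancel_of_le hle]
    rw [Finsupp.sum_add_index' (fun _ => rfl) (fun _ _ _ => rfl)]
    simp
  rcases eq_or_ne d 0 with h | h
  · exact Or.inl h
  · obtain ⟨i, d', h1, h2⟩ := key d h
    rcases eq_or_ne d' 0 with h' | h'
    · subst h'
      exact Or.inr (Or.inl ⟨i, by rw [h1, add_zero]⟩)
    · obtain ⟨j, d'', h3, h4⟩ := key d' h'
      rcases eq_or_ne d'' 0 with h'' | h''
      · subst h''
        exact Or.inr (Or.inr ⟨⟨i, j, by rw [h1, h3, add_zero]⟩, by omega⟩)
      · obtain ⟨k, d3, h5, h6⟩ := key d'' h''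
        omega

theorem prod_single (i : Fin n) (w : V n) :
    ∏ k, w k ^ (Finsupp.single i 1 : Fin n →₀ ℕ) k = w i := by
  classical
  rw [prod_eq_single i]
  · simp
  · intro b _ hb
    simp [hb.symm]
  · simp

/-- The third difference of a polynomial of degree at most two vanishes. -/
theorem third (P : MvPolynomial (Fin n) (ZMod 2)) (hP : P.totalDegree ≤ 2) (x y z : V n) :
    eval (x + y + z) P + eval (x + y) P + eval (x + z) P + eval (y + z) P
      + eval x P + eval y P + eval z P + eval 0 P = 0 := by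
  classical
  simp only [eval_eq']
  rw [← sum_add_distrib, ← sum_add_distrib, ← sum_add_distrib, ← sum_add_distrib,
    ← sum_add_distrib, ← sum_add_distrib, ← sum_add_distrib]
  refine sum_eq_zero fun d hd => ?_
  have h1 : d.sum (fun _ e => e) ≤ 2 := (le_totalDegree hd).trans hP
  have h2 := two_zero
  rcases monomial_cases d h1 with h | ⟨i, h⟩ | ⟨⟨i, j, h⟩, -⟩
  · subst h
    simp only [Finsupp.coe_zero, Pi.zero_apply, pow_zero, prod_const_one]
    linear_combination 4 * coeff 0 P * h2
  · subst h
    simp only [prod_single, Pi.add_apply, Pi.zero_apply]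
    linear_combination (coeff (Finsupp.single i 1) P) * (2 * x i + 2 * y i + 2 * z i) * h2
  · subst h
    have hprod2 : ∀ (w : V n),
        ∏ k, w k ^ (Finsupp.single i 1 + Finsupp.single j 1 : Fin n →₀ ℕ) k = w i * w j := by
      intro w
      calc ∏ k, w k ^ (Finsupp.single i 1 + Finsupp.single j 1 : Fin n →₀ ℕ) k
          = (∏ k, w k ^ (Finsupp.single i 1 : Fin n →₀ ℕ) k) *
            (∏ k, w k ^ (Finsupp.single j 1 : Fin n →₀ ℕ) k) := by
            rw [← prod_mul_distrib]
            refine prod_congr rfl fun k _ => ?_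
            rw [Finsupp.add_apply, pow_add]
        _ = w i * w j := by rw [prod_single, prod_single]
    simp only [hprod2, Pi.add_apply, Pi.zero_apply]
    linear_combination (coeff (Finsupp.single i 1 + Finsupp.single j 1) P) *
      (x i * x j * 2 + y i * y j * 2 + z i * z j * 2 + x i * y j + x j * y i + x i * z j
        + x j * z i + y i * z j + y j * z i) * h2

/-- The second difference of a polynomial of degree at most one vanishes. -/
theorem second (P : MvPolynomial (Fin n) (ZMod 2)) (hP : P.totalDegree ≤ 1) (x y : V n) :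
    eval (x + y) P + eval x P + eval y P + eval 0 P = 0 := by
  classical
  simp only [eval_eq']
  rw [← sum_add_distrib, ← sum_add_distrib, ← sum_add_distrib]
  refine sum_eq_zero fun d hd => ?_
  have h1 : d.sum (fun _ e => e) ≤ 1 := (le_totalDegree hd).trans hP
  have h2 := two_zero
  rcases monomial_cases d (by omega) with h | ⟨i, h⟩ | ⟨⟨i, j, h⟩, h'⟩
  · subst h
    simp only [Finsupp.coe_zero, Pi.zero_apply, pow_zero, prod_const_one]
    linear_combination 2 * coeff 0 P * h2
  · subst h
    simp only [prod_single, Pi.add_apply, Pi.zero_apply]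
    linear_combination (coeff (Finsupp.single i 1) P) * (x i + y i) * h2
  · omega

/-- `F` is APN: for `a ≠ 0` and every `b` the equation `F(x + a) + F(x) = b` has at most two
solutions. -/
def IsAPN (F : V n → V n) : Prop :=
  ∀ a : V n, a ≠ 0 → ∀ b : V n, {x : V n | F (x + a) + F x = b}.ncard ≤ 2

/-- Every coordinate of `F` is given by a polynomial of total degree at most `d`. -/
def DegreeLE (F : V n → V n) (d : ℕ) : Prop :=
  ∀ i, ∃ P : MvPolynomial (Fin n) (ZMod 2), P.totalDegree ≤ d ∧ ∀ x, F x i = eval x P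

/-- The algebraic degree of `F`. -/
noncomputable def algDegree (F : V n → V n) : ℕ := sInf {d | DegreeLE F d}

/-- `F` is quadratic: its algebraic degree is `2`. -/
def IsQuadratic (F : V n → V n) : Prop := algDegree F = 2

/-- `π` is the ortho-derivative of `F`: `π 0 = 0`, and for `a ≠ 0` the vector `π a` is nonzero and
orthogonal to all the vectors `D_a F(x) + D_a F(0)`. -/
def IsOrthoDerivative (F π : V n → V n) : Prop :=
  π 0 = 0 ∧ ∀ a, a ≠ 0 → π a ≠ 0 ∧
    ∀ x, π a ⬝ᵥ ((F (x + a) + F x) + (F (0 + a) + F 0)) = 0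

/-- The nonlinearity `min_{b ≠ 0} min_ℓ #{x : b · G x ≠ ℓ x}`, `ℓ x = c · x + e` affine. -/
noncomputable def nonlinearity (G : V n → V n) : ℕ :=
  sInf {k | ∃ b : V n, b ≠ 0 ∧ ∃ (c : V n) (e : ZMod 2),
    k = {x | b ⬝ᵥ G x ≠ c ⬝ᵥ x + e}.ncard}

theorem IsQuadratic.degreeLE {F : V n → V n} (h : IsQuadratic F) : DegreeLE F 2 := by
  have hne : {d | DegreeLE F d}.Nonempty := by
    by_contra hc
    rw [Set.not_nonempty_iff_eq_empty] at hc
    unfold IsQuadratic algDegree at h
    rw [hc, Nat.sInf_empty] at h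
    omega
  have := Nat.sInf_mem hne
  unfold IsQuadratic algDegree at h
  rwa [h] at this

/-- The symmetric bi-additive form of a quadratic function. -/
def B (F : V n → V n) (x y : V n) : V n := F (x + y) + F x + F y + F 0

section
variable {F : V n → V n}

theorem B_comm (x y : V n) : B F x y = B F y x := by
  unfold B
  rw [add_comm x y]
  abel

theorem B_self (x : V n) : B F x x = 0 := by
  unfold B
  rw [self_add]
  have h1 := self_add (F 0)
  have h2 := self_add (F x)
  calc F 0 + F x + F x + F 0 = (F 0 + F 0) + (F x + F x) := by abel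
    _ = 0 := by rw [h1, h2, add_zero]

theorem B_zero (x : V n) : B F x 0 = 0 := by
  unfold B
  rw [add_zero]
  calc F x + F x + F 0 + F 0 = (F x + F x) + (F 0 + F 0) := by abel
    _ = 0 := by rw [self_add, self_add, add_zero]

theorem zero_B (x : V n) : B F 0 x = 0 := by rw [B_comm, B_zero]

theorem B_add (hF : DegreeLE F 2) (x y z : V n) : B F x (y + z) = B F x y + B F x z := by
  ext i
  obtain ⟨P, hP, hPF⟩ := hF i
  have h := third P hP x y z
  simp only [B, Pi.add_apply, hPF]
  rw [← add_assoc x y z]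
  have h2 := two_zero
  linear_combination h - (eval (x + y) P + eval (x + z) P + eval x P + eval y P + eval z P
    + eval 0 P) * h2

theorem add_B (hF : DegreeLE F 2) (x y z : V n) : B F (x + y) z = B F x z + B F y z := by
  rw [B_comm, B_add hF, B_comm z x, B_comm z y]

/-- the linear map `y ↦ B(x, y)` -/
def L (hF : DegreeLE F 2) (x : V n) : V n →ₗ[ZMod 2] V n :=
  AddMonoidHom.toZModLinearMap 2
    { toFun := fun y => B F x y
      map_zero' := B_zero x
      map_add' := B_add hF x }

theorem L_apply (hF : DegreeLE F 2) (x y : V n) : L hF x y = B F x y := rfl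

theorem eq_of_B_zero (hA : IsAPN F) {a x : V n} (ha : a ≠ 0) (h : B F a x = 0) :
    x = 0 ∨ x = a := by
  classical
  by_contra hcon
  push Not at hcon
  obtain ⟨h0, h1⟩ := hcon
  have h2 := hA a ha (F a + F 0)
  have h3 : ({0, a, x} : Set (V n)) ⊆ {x : V n | F (x + a) + F x = F a + F 0} := by
    intro y hy
    rcases hy with rfl | rfl | rfl
    · show F (0 + a) + F 0 = F a + F 0
      rw [zero_add]
    · show F (y + y) + F y = F y + F 0
      rw [self_add, add_comm]
    · show F (y + a) + F y = F a + F 0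
      have h4 : F (a + y) + F a + F y + F 0 = 0 := h
      have h5 : F (y + a) + F y + (F a + F 0) = 0 := by
        refine Eq.trans ?_ h4
        rw [add_comm y a]; abel
      have h6 : F (y + a) + F y + (F a + F 0) + (F a + F 0) = F a + F 0 := by
        rw [h5, zero_add]
      rw [add_assoc (F (y + a) + F y), self_add, add_zero] at h6
      exact h6
  have h4 : ({0, a, x} : Set (V n)).ncard = 3 := by
    rw [Set.ncard_eq_three]
    exact ⟨0, a, x, ha.symm, h0.symm, h1.symm, rfl⟩
  have h5 := Set.ncard_le_ncard h3 (Set.toFinite _)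
  omega

/-- The functional `v ↦ p · v`. -/
def dot (p : V n) : V n →ₗ[ZMod 2] ZMod 2 where
  toFun v := p ⬝ᵥ v
  map_add' := dotProduct_add p
  map_smul' := fun r v => by rw [dotProduct_smul]; rfl

theorem dot_ne_zero {p : V n} (hp : p ≠ 0) : dot p ≠ 0 := by
  intro h
  apply hp
  ext i
  have h1 : dot p (Pi.single i 1) = 0 := by rw [h]; rfl
  have h2 : dot p (Pi.single i 1) = p i := by
    show p ⬝ᵥ Pi.single i 1 = p i
    simp
  rw [Pi.zero_apply, ← h2, h1]

theorem finrank_V : finrank (ZMod 2) (V n) = n := by simp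

theorem finrank_ker_L (hF : DegreeLE F 2) (hA : IsAPN F) {a : V n} (ha : a ≠ 0) :
    finrank (ZMod 2) (LinearMap.ker (L hF a)) ≤ 1 := by
  have h : LinearMap.ker (L hF a) ≤ Submodule.span (ZMod 2) {a} := by
    intro x hx
    rw [LinearMap.mem_ker, L_apply] at hx
    rcases eq_of_B_zero hA ha hx with rfl | rfl
    · exact Submodule.zero_mem _
    · exact Submodule.mem_span_singleton_self _
  exact (Submodule.finrank_mono h).trans (finrank_span_singleton ha).le

/-- The image of `B(a, .)` is the hyperplane orthogonal to `p`. -/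
theorem surj (hF : DegreeLE F 2) (hA : IsAPN F) {a p : V n} (ha : a ≠ 0) (hp : p ≠ 0)
    (h : ∀ x, p ⬝ᵥ B F a x = 0) {b : V n} (hb : p ⬝ᵥ b = 0) : ∃ y, B F a y = b := by
  have h1 : LinearMap.range (L hF a) ≤ LinearMap.ker (dot p) := by
    rintro _ ⟨x, rfl⟩
    exact h x
  have h2 := Module.Dual.finrank_ker_add_one_of_ne_zero (dot_ne_zero hp)
  have h3 := LinearMap.finrank_range_add_finrank_ker (L hF a)
  have h4 := finrank_ker_L hF hA ha
  have h5 : LinearMap.range (L hF a) = LinearMap.ker (dot p) := by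
    apply Submodule.eq_of_le_of_finrank_le h1
    omega
  have h6 : b ∈ LinearMap.ker (dot p) := hb
  rw [← h5] at h6
  exact h6

theorem ortho_iff {π : V n → V n} (a x : V n) :
    π a ⬝ᵥ ((F (x + a) + F x) + (F (0 + a) + F 0)) = π a ⬝ᵥ B F a x := by
  congr 1
  unfold B
  rw [zero_add, add_comm x a]
  abel

/-- Sums over a hyperplane. -/
theorem sum_hyper (hn : 4 ≤ n) (hF : DegreeLE F 2) (c : V n) (i : Fin n) :
    ∑ x : V n, (F x i + F 0 i) * (1 + c ⬝ᵥ x) = 0 := by
  classical
  obtain ⟨P, hP, hPF⟩ := hF i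
  set Q : MvPolynomial (Fin n) (ZMod 2) := (P + C (F 0 i)) * (1 + ∑ j, C (c j) * X j) with hQ
  have h1 : ∀ x : V n, eval x Q = (F x i + F 0 i) * (1 + c ⬝ᵥ x) := by
    intro x
    simp [hQ, hPF, dotProduct]
  have h2 : Q.totalDegree ≤ 3 := by
    refine (totalDegree_mul _ _).trans ?_
    have h3 : (P + C (F 0 i)).totalDegree ≤ 2 := by
      refine (totalDegree_add _ _).trans ?_
      rw [totalDegree_C]
      omega
    have h4 : (1 + ∑ j, C (c j) * X j : MvPolynomial (Fin n) (ZMod 2)).totalDegree ≤ 1 := by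
      refine (totalDegree_add _ _).trans ?_
      rw [totalDegree_one]
      refine max_le (by omega) ?_
      refine (totalDegree_finsetSum _ _).trans ?_
      refine Finset.sup_le fun j _ => ?_
      refine (totalDegree_mul _ _).trans ?_
      rw [totalDegree_C, totalDegree_X]
    omega
  rw [← Finset.sum_congr rfl fun x _ => h1 x]
  apply sum_eval_eq_zero
  rw [ZMod.card, Fintype.card_fin]
  omega

theorem sum_one (hn : 4 ≤ n) (c : V n) : ∑ x : V n, (1 + c ⬝ᵥ x) = 0 := by
  classical
  set Q : MvPolynomial (Fin n) (ZMod 2) := (1 + ∑ j, C (c j) * X j) with hQ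
  have h1 : ∀ x : V n, eval x Q = (1 + c ⬝ᵥ x) := by
    intro x
    simp [hQ, dotProduct]
  have h4 : Q.totalDegree ≤ 1 := by
    refine (totalDegree_add _ _).trans ?_
    rw [totalDegree_one]
    refine max_le (by omega) ?_
    refine (totalDegree_finsetSum _ _).trans ?_
    refine Finset.sup_le fun j _ => ?_
    refine (totalDegree_mul _ _).trans ?_
    rw [totalDegree_C, totalDegree_X]
  rw [← Finset.sum_congr rfl fun x _ => h1 x]
  apply sum_eval_eq_zero
  rw [ZMod.card, Fintype.card_fin]
  omega

end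

end Pool.Agent.P8H48.Apn
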