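import Pool.Agent.P8H48.Apn

set_option autoImplicit false

namespace Pool.Agent.P8H48.Apn

open MvPolynomial Finset Module

variable {n : ℕ} {F : V n → V n}

/-- the main argument: for `n ≥ 4` no component of the ortho-derivative is affine -/
theorem no_affine (hn : 4 ≤ n) (hF : DegreeLE F 2) (hA : IsAPN F) {π : V n → V n}
    (hπ : IsOrthoDerivative F π) {b c : V n} (hb : b ≠ 0) (h : ∀ x, b ⬝ᵥ π x = c ⬝ᵥ x) :
    False := by
  classical
  have hort : ∀ a x, a ≠ 0 → π a ⬝ᵥ B F a x = 0 := by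
    intro a x ha
    rw [← ortho_iff]
    exact (hπ.2 a ha).2 x
  -- the coordinate `i`
  obtain ⟨i, hi⟩ : ∃ i, b i ≠ 0 := by
    by_contra hc
    push Not at hc
    exact hb (funext hc)
  have hi1 : b i = 1 := by
    have h01 : ∀ t : ZMod 2, t ≠ 0 → t = 1 := by decide
    exact h01 _ hi
  -- partners
  have hpart : ∀ x : V n, x ≠ 0 → c ⬝ᵥ x = 0 → ∃ y, B F x y = b := by
    intro x hx hcx
    refine surj hF hA hx (hπ.2 x hx).1 (fun y => hort x y hx) ?_
    rw [dotProduct_comm, h, hcx]
  set f : V n → ZMod 2 := fun x => F x i + F 0 i with hf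
  set H : Finset (V n) := univ.filter fun x => c ⬝ᵥ x = 0 with hH
  set S : Finset (V n × V n) := univ.filter fun p => c ⬝ᵥ p.1 = 0 ∧ B F p.1 p.2 = b with hS
  have hSmem : ∀ x y, (x, y) ∈ S ↔ c ⬝ᵥ x = 0 ∧ B F x y = b := by
    intro x y
    simp [hS]
  have hSne : ∀ x y, (x, y) ∈ S → x ≠ 0 ∧ y ≠ 0 ∧ x ≠ y := by
    intro x y hxy
    rw [hSmem] at hxy
    refine ⟨?_, ?_, ?_⟩
    · rintro rfl
      exact hb (by rw [← hxy.2, zero_B])
    · rintro rfl
      exact hb (by rw [← hxy.2, B_zero])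
    · rintro rfl
      exact hb (by rw [← hxy.2, B_self])
  have hswap : ∀ x y, (x, y) ∈ S → (y, x) ∈ S := by
    intro x y hxy
    have h1 := hSne x y hxy
    rw [hSmem] at hxy ⊢
    refine ⟨?_, by rw [B_comm]; exact hxy.2⟩
    rw [← h, dotProduct_comm, ← hxy.2, B_comm]
    exact hort y x h1.2.1
  have hadd : ∀ x y, (x, y) ∈ S → (x + y, y) ∈ S := by
    intro x y hxy
    have h1 := (hSmem _ _).1 (hswap x y hxy)
    rw [hSmem] at hxy ⊢
    refine ⟨?_, ?_⟩
    · rw [dotProduct_add, hxy.1, h1.1, add_zero]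
    · rw [add_B hF, hxy.2, B_self, add_zero]
  -- number of pairs with given first entry
  have hfib : ∀ x ∈ H, x ≠ 0 → #{y | B F x y = b} = 2 := by
    intro x hx hx0
    obtain ⟨y, hy⟩ := hpart x hx0 (by simpa [hH] using hx)
    have hset : (univ.filter fun z => B F x z = b) = {y, y + x} := by
      ext z
      simp only [mem_filter, mem_univ, true_and, mem_insert, mem_singleton]
      constructor
      · intro hz
        have h1 : B F x (y + z) = 0 := by rw [B_add hF, hy, hz, self_add]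
        rcases eq_of_B_zero hA hx0 h1 with h2 | h2
        · left
          have : y + (y + z) = y := by rw [h2, add_zero]
          rw [← add_assoc, self_add, zero_add] at this
          exact this
        · right
          have : y + (y + z) = y + x := by rw [h2]
          rw [← add_assoc, self_add, zero_add] at this
          exact this
      · rintro (rfl | rfl)
        · exact hy
        · rw [B_add hF, hy, B_self, add_zero]
    rw [hset, card_pair]
    intro h1
    apply hx0
    have : y + y = y + (y + x) := by rw [← h1]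
    rw [← add_assoc, self_add, zero_add] at this
    exact this.symm
  -- sums over `S` of functions of the first entry
  have hsumS : ∀ g : V n → ℕ, g 0 = 0 → ∑ p ∈ S, g p.1 = 2 * ∑ x ∈ H, g x := by
    intro g hg
    have h1 : S = H.biUnion fun x => (univ.filter fun y => B F x y = b).image fun y => (x, y) := by
      ext ⟨x, y⟩
      simp only [hS, hH, mem_filter, mem_univ, true_and, mem_biUnion, mem_image, Prod.mk.injEq]
      constructor
      · rintro ⟨h1, h2⟩
        exact ⟨x, h1, y, h2, rfl, rfl⟩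
      · rintro ⟨x', h1, y', h2, rfl, rfl⟩
        exact ⟨h1, h2⟩
    rw [h1, sum_biUnion, mul_sum]
    · refine sum_congr rfl fun x hx => ?_
      rw [sum_image]
      · simp only [sum_const, smul_eq_mul]
        rcases eq_or_ne x 0 with rfl | hx0
        · rw [hg]; simp
        · rw [hfib x hx hx0]
      · intro y _ y' _ hyy
        simpa using hyy
    · intro x _ x' _ hxx
      rw [Function.onFun, disjoint_left]
      rintro ⟨u, v⟩ h1 h2
      simp only [mem_image, Prod.mk.injEq] at h1 h2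
      obtain ⟨_, _, rfl, _⟩ := h1
      obtain ⟨_, _, h3, _⟩ := h2
      exact hxx h3.symm
  set g : V n → ℕ := fun x => if f x = 1 then 1 else 0 with hg
  have hf0 : f 0 = 0 := by
    show F 0 i + F 0 i = 0
    exact CharTwo.add_self_eq_zero _
  have hg0 : g 0 = 0 := by simp [hg, hf0]
  set A := ∑ x ∈ H, g x with hAdef
  have e1 : ∑ p ∈ S, g p.1 = 2 * A := hsumS g hg0
  have e2 : ∑ p ∈ S, g p.2 = 2 * A := by
    rw [← e1]
    refine sum_bij' (fun p _ => (p.2, p.1)) (fun p _ => (p.2, p.1)) ?_ ?_ ?_ ?_ ?_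
    · rintro ⟨x, y⟩ hp; exact hswap x y hp
    · rintro ⟨x, y⟩ hp; exact hswap x y hp
    · intro p _; rfl
    · intro p _; rfl
    · intro p _; rfl
  have e3 : ∑ p ∈ S, g (p.1 + p.2) = 2 * A := by
    rw [← e1]
    refine sum_bij' (fun p _ => (p.1 + p.2, p.2)) (fun p _ => (p.1 + p.2, p.2)) ?_ ?_ ?_ ?_ ?_
    · rintro ⟨x, y⟩ hp; exact hadd x y hp
    · rintro ⟨x, y⟩ hp; exact hadd x y hp
    · rintro ⟨x, y⟩ _
      simp only [Prod.mk.injEq, and_true]
      rw [add_assoc, self_add, add_zero]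
    · rintro ⟨x, y⟩ _
      simp only [Prod.mk.injEq, and_true]
      rw [add_assoc, self_add, add_zero]
    · intro p _; rfl
  -- the number of elements of `S`
  have e4 : #S = 2 * (#H - 1) := by
    have h1 := hsumS (fun x => if x = 0 then 0 else 1) (by simp)
    have h2 : ∑ p ∈ S, (if p.1 = 0 then 0 else 1) = #S := by
      rw [card_eq_sum_ones]
      refine sum_congr rfl ?_
      rintro ⟨x, y⟩ hp
      simp [(hSne x y hp).1]
    have h3 : ∑ x ∈ H, (if x = 0 then 0 else 1) = #H - 1 := by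
      have h0 : (0 : V n) ∈ H := by simp [hH]
      rw [← card_erase_of_mem h0, card_eq_sum_ones, ← add_sum_erase H _ h0]
      simp only [if_true, zero_add]
      refine sum_congr rfl fun x hx => ?_
      simp [(mem_erase.1 hx).1]
    rw [h2, h3] at h1
    exact h1
  set K := S.filter fun p => f p.1 = 1 ∧ f p.2 = 1 ∧ f (p.1 + p.2) = 1 with hK
  have e5 : ∑ p ∈ S, (g p.1 + g p.2 + g (p.1 + p.2)) = #S + 2 * #K := by
    have h1 : 2 * #K = ∑ p ∈ S, if f p.1 = 1 ∧ f p.2 = 1 ∧ f (p.1 + p.2) = 1 then 2 else 0 := by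
      rw [← sum_filter, sum_const, smul_eq_mul, mul_comm]
    rw [h1, card_eq_sum_ones, ← sum_add_distrib]
    refine sum_congr rfl ?_
    rintro ⟨x, y⟩ hp
    have h2 := ((hSmem x y).1 hp).2
    have h3 : f x + f y + f (x + y) = 1 := by
      have h4 := congrFun h2 i
      simp only [B, Pi.add_apply] at h4
      rw [hi1] at h4
      simp only [hf]
      linear_combination h4 + F 0 i * two_zero
    simp only [hg]
    have key : ∀ u v w : ZMod 2, u + v + w = 1 →
        (if u = 1 then 1 else 0) + (if v = 1 then 1 else 0) + (if w = 1 then 1 else 0) =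
          1 + if u = 1 ∧ v = 1 ∧ w = 1 then 2 else 0 := by decide
    exact key _ _ _ h3
  have e6 : 6 * A = #S + 2 * #K := by
    rw [← e5, sum_add_distrib, sum_add_distrib, e1, e2, e3]
    ring
  have hHpos : 1 ≤ #H := card_pos.2 ⟨0, by simp [hH]⟩
  have e7 : 3 * A + 1 = #H + #K := by omega
  -- parities
  have p1 : (#H : ZMod 2) = 0 := by
    rw [← sum_one hn c, card_eq_sum_ones, Nat.cast_sum]
    rw [hH, sum_filter]
    refine sum_congr rfl fun x _ => ?_
    have key : ∀ u : ZMod 2, (if u = 0 then ((1 : ℕ) : ZMod 2) else 0) = 1 + u := by decide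
    exact key _
  have p2 : (#K : ZMod 2) = 0 := by
    have h1 : ∑ p ∈ K, (1 : ZMod 2) = 0 := by
      refine sum_involution (fun p _ => (p.2, p.1)) ?_ ?_ ?_ ?_
      · intro p _; decide
      · rintro ⟨x, y⟩ hp _ hxy
        have h1 := hSne x y (mem_filter.1 hp).1
        rw [Prod.mk.injEq] at hxy
        exact h1.2.2 hxy.2
      · rintro ⟨x, y⟩ hp
        obtain ⟨h1, h2, h3, h4⟩ := mem_filter.1 hp
        refine mem_filter.2 ⟨hswap x y h1, h3, h2, ?_⟩
        show f (y + x) = 1
        rw [add_comm]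
        exact h4
      · intro p _; rfl
    simpa using h1
  have p3 : (A : ZMod 2) = 0 := by
    rw [← sum_hyper hn hF c i, hAdef, Nat.cast_sum, hH, sum_filter]
    refine sum_congr rfl fun x _ => ?_
    have key : ∀ u v : ZMod 2, (if u = 0 then (((if v = 1 then 1 else 0 : ℕ)) : ZMod 2) else 0) =
      v * (1 + u) := by decide
    exact key _ _
  have e8 : ((3 * A + 1 : ℕ) : ZMod 2) = ((#H + #K : ℕ) : ZMod 2) := by rw [e7]
  push_cast at e8
  rw [p1, p2, p3] at e8
  revert e8
  decide

theorem nonlin_zero_iff (hn : 1 ≤ n) (G : V n → V n) : nonlinearity G = 0 ↔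
    ∃ b : V n, b ≠ 0 ∧ ∃ (c : V n) (e : ZMod 2), ∀ x, b ⬝ᵥ G x = c ⬝ᵥ x + e := by
  classical
  unfold nonlinearity
  have hne : {k | ∃ b : V n, b ≠ 0 ∧ ∃ (c : V n) (e : ZMod 2),
      k = {x | b ⬝ᵥ G x ≠ c ⬝ᵥ x + e}.ncard}.Nonempty := by
    refine ⟨_, fun _ => 1, ?_, 0, 0, rfl⟩
    intro h
    have h1 : (1 : ZMod 2) = 0 := congrFun h ⟨0, hn⟩
    exact one_ne_zero h1
  constructor
  · intro h
    have h1 := Nat.sInf_mem hne
    rw [h] at h1
    obtain ⟨b, hb, c, e, h2⟩ := h1
    refine ⟨b, hb, c, e, fun x => ?_⟩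
    have h3 := (Set.ncard_eq_zero (Set.toFinite _)).1 h2.symm
    by_contra hx
    have : x ∈ {x | b ⬝ᵥ G x ≠ c ⬝ᵥ x + e} := hx
    rw [h3] at this
    exact this
  · rintro ⟨b, hb, c, e, h⟩
    rw [Nat.sInf_eq_zero]
    left
    refine ⟨b, hb, c, e, ?_⟩
    symm
    rw [Set.ncard_eq_zero (Set.toFinite _), Set.eq_empty_iff_forall_notMem]
    intro x hx
    exact hx (h x)

theorem ge_four (hn : 4 ≤ n) (hF : DegreeLE F 2) (hA : IsAPN F) {π : V n → V n}
    (hπ : IsOrthoDerivative F π) : 0 < nonlinearity π := by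
  rw [Nat.pos_iff_ne_zero]
  intro h
  rw [nonlin_zero_iff (by omega)] at h
  obtain ⟨b, hb, c, e, h⟩ := h
  have he : e = 0 := by
    have := h 0
    rw [hπ.1, dotProduct_zero, dotProduct_zero, zero_add] at this
    exact this.symm
  exact no_affine hn hF hA hπ hb (fun x => by rw [h x, he, add_zero])

/-- existence and uniqueness of the ortho-derivative -/
theorem exists_unique (hF : DegreeLE F 2) (hA : IsAPN F) : ∃! π, IsOrthoDerivative F π := by
  classical
  have hex : ∀ a : V n, a ≠ 0 → ∃ p : V n, p ≠ 0 ∧ ∀ x, p ⬝ᵥ B F a x = 0 := by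
    intro a ha
    have h1 : LinearMap.range (L hF a) < ⊤ := by
      rw [lt_top_iff_ne_top]
      intro htop
      have h2 := LinearMap.finrank_range_add_finrank_ker (L hF a)
      rw [htop, finrank_top] at h2
      have h3 : a ∈ LinearMap.ker (L hF a) := by
        rw [LinearMap.mem_ker, L_apply, B_self]
      have h4 : finrank (ZMod 2) (LinearMap.ker (L hF a)) = 0 := by omega
      rw [Submodule.finrank_eq_zero] at h4
      rw [h4, Submodule.mem_bot] at h3
      exact ha h3
    obtain ⟨φ, hφ, hle⟩ := Submodule.exists_le_ker_of_lt_top _ h1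
    have hrep : ∀ v, (fun i => φ (Pi.single i 1)) ⬝ᵥ v = φ v := by
      intro v
      rw [LinearMap.pi_apply_eq_sum_univ φ v]
      unfold dotProduct
      refine sum_congr rfl fun i _ => ?_
      have h5 : (Pi.single i 1 : V n) = fun j => if i = j then 1 else 0 := by
        ext j
        simp [Pi.single_apply, eq_comm]
      rw [smul_eq_mul, mul_comm, ← h5]
    refine ⟨fun i => φ (Pi.single i 1), ?_, ?_⟩
    · intro h0
      apply hφ
      refine LinearMap.ext fun v => ?_
      have := hrep v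
      rw [h0, zero_dotProduct] at this
      exact this.symm
    · intro x
      rw [hrep]
      have : B F a x ∈ LinearMap.range (L hF a) := ⟨x, rfl⟩
      exact hle this
  choose! p hp using hex
  refine ⟨fun a => if a = 0 then 0 else p a, ⟨by simp, ?_⟩, ?_⟩
  · intro a ha
    simp only [if_neg ha]
    refine ⟨(hp a ha).1, fun x => ?_⟩
    rw [ortho_iff (π := p)]
    exact (hp a ha).2 x
  · intro π hπ
    funext a
    rcases eq_or_ne a 0 with rfl | ha
    · simp [hπ.1]
    · simp only [if_neg ha]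
      have h1 : ∀ x, π a ⬝ᵥ B F a x = 0 := by
        intro x
        rw [← ortho_iff]
        exact (hπ.2 a ha).2 x
      have h2 : ∀ b, π a ⬝ᵥ b = 0 ↔ p a ⬝ᵥ b = 0 := by
        intro b
        constructor
        · intro hb
          obtain ⟨y, rfl⟩ := surj hF hA ha (hπ.2 a ha).1 h1 hb
          exact (hp a ha).2 y
        · intro hb
          obtain ⟨y, rfl⟩ := surj hF hA ha (hp a ha).1 (hp a ha).2 hb
          exact h1 y
      have h3 : ∀ u v : ZMod 2, (u = 0 ↔ v = 0) → u = v := by decide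
      ext i
      have h4 := h3 _ _ (h2 (Pi.single i 1))
      simpa using h4

/-- for `n = 3` the ortho-derivative is linear -/
theorem three {F : V 3 → V 3} (hF : DegreeLE F 2) (hA : IsAPN F) {π : V 3 → V 3}
    (hπ : IsOrthoDerivative F π) : nonlinearity π = 0 := by
  classical
  rw [nonlin_zero_iff (by norm_num)]
  have hort : ∀ a x, a ≠ 0 → π a ⬝ᵥ B F a x = 0 := by
    intro a x ha
    rw [← ortho_iff]
    exact (hπ.2 a ha).2 x
  set e0 : V 3 := ![1, 0, 0] with he0
  set e1 : V 3 := ![0, 1, 0] with he1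
  set e2 : V 3 := ![0, 0, 1] with he2
  have h01 : ∀ t : ZMod 2, t = 0 ∨ t = 1 := by decide
  have hsplit : ∀ x : V 3, x = x 0 • e0 + x 1 • e1 + x 2 • e2 := by
    intro x
    ext i
    fin_cases i <;> simp [he0, he1, he2]
  have hBs : ∀ (x y : V 3) (t : ZMod 2), B F (t • x) y = t • B F x y := by
    intro x y t
    rcases h01 t with rfl | rfl
    · rw [zero_smul, zero_smul, zero_B]
    · rw [one_smul, one_smul]
  have hne : ∀ x y : V 3, x ≠ 0 → y ≠ 0 → x ≠ y → B F x y ≠ 0 := by
    intro x y hx hy hxy h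
    rcases eq_of_B_zero hA hx h with h | h
    · exact hy h
    · exact hxy h.symm
  refine ⟨B F e0 e1, hne _ _ (by decide) (by decide) (by decide), e2, 0, fun x => ?_⟩
  rw [add_zero]
  rcases eq_or_ne x 0 with rfl | hx
  · rw [hπ.1, dotProduct_zero, dotProduct_zero]
  set p := π x with hp
  have hp0 : p ≠ 0 := (hπ.2 x hx).1
  -- the three values
  set u := p ⬝ᵥ B F e0 e1 with hu
  set v := p ⬝ᵥ B F e0 e2 with hv
  set w := p ⬝ᵥ B F e1 e2 with hw
  have hx0 : x 1 * u + x 2 * v = 0 := by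
    have h1 := hort x e0 hx
    rw [hsplit x, add_B hF, add_B hF, hBs, hBs, hBs, B_self, smul_zero, zero_add,
      ← hsplit x, B_comm e1 e0, B_comm e2 e0, dotProduct_add, dotProduct_smul,
      dotProduct_smul] at h1
    exact h1
  have hx1 : x 0 * u + x 2 * w = 0 := by
    have h1 := hort x e1 hx
    rw [hsplit x, add_B hF, add_B hF, hBs, hBs, hBs, B_self, smul_zero, add_zero,
      ← hsplit x, B_comm e2 e1, dotProduct_add, dotProduct_smul,
      dotProduct_smul] at h1
    exact h1
  have hx2 : x 0 * v + x 1 * w = 0 := by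
    have h1 := hort x e2 hx
    rw [hsplit x, add_B hF, add_B hF, hBs, hBs, hBs, B_self, smul_zero, add_zero,
      ← hsplit x, dotProduct_add, dotProduct_smul, dotProduct_smul] at h1
    exact h1
  have hnz : ¬ (u = 0 ∧ v = 0 ∧ w = 0) := by
    rintro ⟨hu0, hv0, hw0⟩
    have h1 : ∀ y, p ⬝ᵥ B F e0 y = 0 := by
      intro y
      rw [hsplit y, B_add hF, B_add hF, B_comm e0 (y 0 • e0), B_comm e0 (y 1 • e1),
        B_comm e0 (y 2 • e2), hBs, hBs, hBs, B_self, smul_zero, zero_add, B_comm e1 e0,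
        B_comm e2 e0, dotProduct_add, dotProduct_smul, dotProduct_smul, ← hu, ← hv, hu0, hv0]
      simp
    obtain ⟨y, hy⟩ := surj hF hA (a := e0) (by decide) hp0 h1 hw0
    have h2 : B F e0 y = y 1 • B F e0 e1 + y 2 • B F e0 e2 := by
      conv_lhs => rw [hsplit y]
      rw [B_add hF, B_add hF, B_comm e0 (y 0 • e0), B_comm e0 (y 1 • e1),
        B_comm e0 (y 2 • e2), hBs, hBs, hBs, B_self, smul_zero, zero_add, B_comm e1 e0,
        B_comm e2 e0]
    rw [hy] at h2
    rcases h01 (y 1) with h3 | h3 <;> rcases h01 (y 2) with h4 | h4 <;> rw [h3, h4] at h2 <;>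
      simp only [zero_smul, one_smul, zero_add, add_zero] at h2
    · exact hne e1 e2 (by decide) (by decide) (by decide) h2
    · apply hne (e1 + e0) e2 (by decide) (by decide) (by decide)
      rw [add_B hF, h2, self_add]
    · apply hne e1 (e2 + e0) (by decide) (by decide) (by decide)
      rw [B_add hF, h2, B_comm e1 e0, self_add]
    · apply hne (e0 + e1) (e1 + e2) (by decide) (by decide) (by decide)
      rw [add_B hF, B_add hF, B_add hF, B_self, zero_add, h2, self_add]
  have hxne : ¬ (x 0 = 0 ∧ x 1 = 0 ∧ x 2 = 0) := by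
    rintro ⟨h0, h1, h2⟩
    apply hx
    rw [hsplit x, h0, h1, h2]
    simp
  have hval : e2 ⬝ᵥ x = x 2 := by
    simp [he2, dotProduct, Fin.sum_univ_three]
  rw [hval, dotProduct_comm]
  show u = x 2
  have key : ∀ x0 x1 x2 u v w : ZMod 2, x1 * u + x2 * v = 0 → x0 * u + x2 * w = 0 →
      x0 * v + x1 * w = 0 → ¬ (u = 0 ∧ v = 0 ∧ w = 0) → ¬ (x0 = 0 ∧ x1 = 0 ∧ x2 = 0) →
      u = x2 := by decide
  exact key _ _ _ u v w hx0 hx1 hx2 hnz hxne

/-- an example for `n = 3` -/
def F3 (x : V 3) : V 3 := ![x 0 * x 1, x 0 * x 2, x 1 * x 2]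

theorem F3_quadratic : IsQuadratic F3 := by
  have h2 : DegreeLE F3 2 := by
    intro i
    have hdeg : ∀ a b : Fin 3, (X a * X b : MvPolynomial (Fin 3) (ZMod 2)).totalDegree ≤ 2 := by
      intro a b
      refine (totalDegree_mul _ _).trans ?_
      rw [totalDegree_X, totalDegree_X]
    fin_cases i
    · exact ⟨X 0 * X 1, hdeg _ _, fun x => by simp [F3]⟩
    · exact ⟨X 0 * X 2, hdeg _ _, fun x => by simp [F3]⟩
    · exact ⟨X 1 * X 2, hdeg _ _, fun x => by simp [F3]⟩
  have h1 : ¬ ∃ d, d ≤ 1 ∧ DegreeLE F3 d := by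
    rintro ⟨d, hd, h⟩
    obtain ⟨P, hP, hPF⟩ := h 0
    have h3 := second P (hP.trans hd) ![1, 0, 0] ![0, 1, 0]
    rw [← hPF, ← hPF, ← hPF, ← hPF] at h3
    revert h3
    decide
  have h3 : algDegree F3 ≤ 2 := Nat.sInf_le h2
  have h4 : DegreeLE F3 (algDegree F3) := Nat.sInf_mem (s := {d | DegreeLE F3 d}) ⟨2, h2⟩
  have h5 : ¬ algDegree F3 ≤ 1 := fun h => h1 ⟨_, h, h4⟩
  unfold IsQuadratic
  omega

theorem F3_apn : IsAPN F3 := by
  intro a ha b
  have key : ∀ a : V 3, a ≠ 0 → ∀ b : V 3,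
      (univ.filter fun x : V 3 => F3 (x + a) + F3 x = b).card ≤ 2 := by
    decide +kernel
  have h := key a ha b
  rw [← Set.ncard_coe_finset] at h
  simpa using h

end Pool.Agent.P8H48.Apn
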